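import Pool.Agent.EU.Final

/-!
# Entire solutions of `u₁₁ u₂₂ = 1` in the plane (MP_59489a_an, Q1)

Complete classification.  All definitions are in `Pool/Agent/EU/Defs.lean`, `Types.lean`,
`OntoDefs.lean` and `ClassDefs.lean`:

* `P = ℝ × ℝ`, `d1`, `d2` the partial derivatives, `IsEntireSolution u`: `u` is `C²`,
  coordinate-convex and `u₁₁ u₂₂ = 1`; `IsQuadratic`; `rot (x₁, x₂) = (-x₂, x₁)`;
* first family: `TypeI γ b M F` gives the differential of the map `F` by explicit integrals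
  against a finite measure `M` on `[-π, π]`; `OntoI γ b M` is the explicit condition on the data
  for `F` to be onto; `HessI F u` says `(u₁₁, u₁₂, u₂₂)(F q) = (e^{-q₁}, q₂, e^{q₁})`;
* second family: `TypeII h₀ b M F`, `OntoII M`, `HessII h₀ v₀ F u`, the last one says
  `(u₁₁, u₁₂, u₂₂)(F q) = (e^{-H}, v₀ + 2 q₁ q₂, e^H)`, `H = h₀ + q₁² - q₂²`.
-/

set_option autoImplicit false
open scoped ContDiff Topology
open Real Set MeasureTheory Filter Pool.Agent.EU

theorem Pool.Agent.Results.MP_59489a_an.Classification.result :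
    -- (1) the list of all entire solutions
    (∀ u : P → ℝ, IsEntireSolution u ↔ IsQuadratic u ∨
      (∃ k < 4, ∃ γ ∈ Ico 0 (π / 2), ∃ (b : ℝ) (M : Measure ℝ) (F : P → P),
        TypeI γ b M F ∧ OntoI γ b M ∧ HessI F fun x => u (rot^[k] x)) ∨
      (∃ (h₀ v₀ b : ℝ) (M : Measure ℝ) (F : P → P),
        TypeII h₀ b M F ∧ OntoII M ∧ HessII h₀ v₀ F u)) ∧
    -- (2) first family: every datum `γ, b, M, F 0` has exactly one map `F`
    (∀ (γ b : ℝ) (M : Measure ℝ) (p : P), IsFiniteMeasure M → M (Icc (-π) π)ᶜ = 0 → M ≠ 0 →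
      ∃! F : P → P, TypeI γ b M F ∧ F 0 = p) ∧
    -- (3) `F` is onto iff the explicit criterion holds; then it is a smooth bijection and it
    -- belongs, for each `k`, to exactly one solution up to adding affine functions
    (∀ γ ∈ Ico 0 (π / 2), ∀ (b : ℝ) (M : Measure ℝ) (F : P → P), TypeI γ b M F →
      (Function.Surjective F ↔ OntoI γ b M) ∧
      (OntoI γ b M → Function.Bijective F ∧ ContDiff ℝ ∞ F ∧ ∀ k : ℕ, ∃ u : P → ℝ, ∀ w : P → ℝ,
        (HessI F fun x => w (rot^[k] x)) ↔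
          ∃ l m n : ℝ, ∀ x, w x = u x + l * x.1 + m * x.2 + n)) ∧
    -- (4) second family: every datum `h₀, b, M, F 0` has exactly one map `F`
    (∀ (h₀ b : ℝ) (M : Measure ℝ) (p : P), IsFiniteMeasure M → M (Icc (-π) π)ᶜ = 0 → M ≠ 0 →
      ∃! F : P → P, TypeII h₀ b M F ∧ F 0 = p) ∧
    -- (5) the same as (3) for the second family
    (∀ (h₀ b : ℝ) (M : Measure ℝ) (F : P → P), TypeII h₀ b M F →
      (Function.Surjective F ↔ OntoII M) ∧
      (OntoII M → Function.Bijective F ∧ ContDiff ℝ ∞ F ∧ ∀ v₀ : ℝ, ∃ u : P → ℝ, ∀ w : P → ℝ,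
        HessII h₀ v₀ F w ↔ ∃ l m n : ℝ, ∀ x, w x = u x + l * x.1 + m * x.2 + n)) ∧
    -- (6) the three classes exclude each other
    (∀ (u : P → ℝ) (k : ℕ) (γ b : ℝ) (M : Measure ℝ) (F : P → P) (h₀ v₀ b' : ℝ) (M' : Measure ℝ)
      (G : P → P),
      ¬ (IsQuadratic u ∧ HessI F fun x => u (rot^[k] x)) ∧
      ¬ (IsQuadratic u ∧ HessII h₀ v₀ G u) ∧
      ¬ ((γ ∈ Ico 0 (π / 2) ∧ TypeI γ b M F ∧ OntoI γ b M ∧ HessI F fun x => u (rot^[k] x)) ∧
        TypeII h₀ b' M' G ∧ OntoII M' ∧ HessII h₀ v₀ G u)) ∧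
    -- (7) first family, uniqueness of the data: `u` and `k` determine `F`; `F` and `γ` determine
    -- `b` and the measure on the circle defined by `M`; the possible `γ` for a given `F`
    (∀ (u : P → ℝ) (F G : P → P), Function.Surjective F → HessI F u → HessI G u → F = G) ∧
    (∀ (γ b b' : ℝ) (M M' : Measure ℝ) (F : P → P), TypeI γ b M F → TypeI γ b' M' F →
      b = b' ∧ M.map circ = M'.map circ) ∧
    (∀ (γ b : ℝ) (M : Measure ℝ) (F : P → P), TypeI γ b M F → Function.Surjective F →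
      ∀ γ' : ℝ, (∃ (b' : ℝ) (M' : Measure ℝ), TypeI γ' b' M' F) ↔
        ∀ q, 0 ≤ cos γ' * d1 (fun q => (F q).1) q + sin γ' * d2 (fun q => (F q).1) q) ∧
    -- (8) second family: `u` determines all the data
    (∀ (u : P → ℝ) (h₀ v₀ b h₀' v₀' b' : ℝ) (M M' : Measure ℝ) (F F' : P → P),
      TypeII h₀ b M F → OntoII M → HessII h₀ v₀ F u →
      TypeII h₀' b' M' F' → OntoII M' → HessII h₀' v₀' F' u →
      h₀ = h₀' ∧ v₀ = v₀' ∧ b = b' ∧ F = F' ∧ M.map circ = M'.map circ) := by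
  have injI : ∀ {γ b : ℝ} {M : Measure ℝ} {F : P → P}, TypeI γ b M F → Function.Surjective F →
      Function.Injective F := fun h hs => (u_of_typeI h hs).1
  have injII : ∀ {h b : ℝ} {M : Measure ℝ} {F : P → P}, TypeII h b M F → Function.Surjective F →
      Function.Injective F := fun h hs => (u_of_typeII (v0 := 0) h hs).1
  refine ⟨final_list, ?_, ?_, ?_, ?_, ?_, ?_, ?_, ?_, ?_⟩
  · intro γ b M p h1 h2 h3
    exact typeI_existsUnique γ b M h2 h3 p
  · intro γ hγ b M F hF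
    refine ⟨typeI_onto_iff hγ hF, fun h => ?_⟩
    have hs := (typeI_onto_iff hγ hF).2 h
    exact ⟨⟨injI hF hs, hs⟩, typeI_smooth hF, all_uI hF hs⟩
  · intro h₀ b M p h1 h2 h3
    exact typeII_existsUnique h₀ b M h2 h3 p
  · intro h₀ b M F hF
    refine ⟨typeII_onto_iff hF, fun h => ?_⟩
    have hs := (typeII_onto_iff hF).2 h
    exact ⟨⟨injII hF hs, hs⟩, typeII_smooth hF, all_uII hF hs⟩
  · intro u k γ b M F h₀ v₀ b' M' G
    refine ⟨fun h => quad_not_I h.1 k F h.2, fun h => quad_not_II h.1 h₀ v₀ G h.2, ?_⟩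
    rintro ⟨⟨hγ, hF, hM, hu⟩, hG, hM', hu'⟩
    exact I_not_II ((typeI_onto_iff hγ hF).2 hM) hu (injII hG ((typeII_onto_iff hG).2 hM')) hu'
  · exact fun u F G hs h1 h2 => hessI_unique hs h1 h2
  · exact fun γ b b' M M' F h1 h2 => typeI_params h1 h2
  · exact fun γ b M F h hs γ' => typeI_gamma h hs γ'
  · intro u h₀ v₀ b h₀' v₀' b' M M' F F' hF hM hu hF' hM' hu'
    have hs := (typeII_onto_iff hF).2 hM
    have hs' := (typeII_onto_iff hF').2 hM'
    obtain ⟨rfl, rfl, rfl⟩ := hessII_unique hF hF' ⟨injII hF hs, hs⟩ ⟨injII hF' hs', hs'⟩ hu hu'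
    obtain ⟨rfl, h⟩ := typeII_params hF hF'
    exact ⟨rfl, rfl, rfl, rfl, h⟩
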